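import Pool.Agent.P.MP_42fc1a_nt.EK.All

set_option autoImplicit false

namespace Pool.Agent.Results.MP_42fc1a_nt.AlmostAllE2

/-- There is one `k` such that all but `ε X` of the integers up to `X` are a product of two primes
plus at most `k` powers of two, the first prime being at most a power of the logarithm. -/
theorem result : ∃ k : ℕ, ∀ ε : ℝ, 0 < ε → ∃ A X₀ : ℕ, ∀ X : ℕ, X₀ ≤ X →
    (({n : ℕ | 1 ≤ n ∧ n ≤ X ∧ ¬ ∃ (p₁ p₂ : ℕ) (pows : Multiset ℕ), p₁.Prime ∧ p₂.Prime ∧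
      pows.card ≤ k ∧ (p₁ : ℝ) ≤ Real.log n ^ A ∧
      n = p₁ * p₂ + (pows.map (2 ^ ·)).sum}.ncard : ℕ) : ℝ) ≤ ε * X := by
  classical
  obtain ⟨k, H⟩ := Pool.Agent.P.MP_42fc1a_nt.EK.a_FIN
  refine ⟨k, fun ε hε => ?_⟩
  obtain ⟨A, X₀, H⟩ := H ε hε
  refine ⟨A, X₀, fun X hX => le_trans (le_of_eq ?_) (H X hX)⟩
  rw [← Set.ncard_coe_finset]
  congr 2
  ext n
  simp only [Pool.Agent.P.MP_42fc1a_nt.EK.Rep, Finset.coe_filter, Finset.mem_Icc, and_assoc]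

end Pool.Agent.Results.MP_42fc1a_nt.AlmostAllE2
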