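import Pool.Agent.P.MP_42fc1a_nt.TU.AllL
import Pool.Agent.P.MP_42fc1a_nt.TU.TFINAL

set_option autoImplicit false

namespace Pool.Agent.Results.MP_42fc1a_nt.CharTwoDensityOne

open Polynomial

/-- There is one `k` such that all but `ε 2 ^ n` of the monic polynomials of degree `n` over the
field with two elements are an irreducible polynomial plus at most `k` powers of `X` of degree
less than `n`. -/
theorem result : ∃ k : ℕ, ∀ ε : ℝ, 0 < ε → ∃ n₀ : ℕ, ∀ n : ℕ, n₀ ≤ n →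
    (({f : (ZMod 2)[X] | f.Monic ∧ f.natDegree = n ∧ ¬ ∃ (P : (ZMod 2)[X]) (s : Multiset ℕ),
      Irreducible P ∧ s.card ≤ k ∧ (∀ a ∈ s, a < n) ∧
        f = P + (s.map fun a => X ^ a).sum}.ncard : ℕ) : ℝ) ≤ ε * 2 ^ n :=
  Pool.Agent.P.MP_42fc1a_nt.TU.p_FINAL Pool.Agent.P.MP_42fc1a_nt.TU.a_LOC

end Pool.Agent.Results.MP_42fc1a_nt.CharTwoDensityOne
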