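import Pool.Agent.P.MP_42fc1a_nt.Main
import Pool.Prelude.Def_F_2113c8fb

set_option autoImplicit false

namespace Pool.Agent.Results.MP_42fc1a_nt.EveryProgression

/-- There is one `k` such that every residue class modulo every `q` contains infinitely many
sums of a prime and at most `k` powers of two. -/
theorem result : ∃ k : ℕ, ∀ q : ℕ, 0 < q → ∀ r : ℕ,
    {n : ℕ | n ≡ r [MOD q] ∧ n ∈ Ncc191b73.sumPrimeAndTwoPows k}.Infinite := by
  obtain ⟨k, H⟩ := Pool.Agent.P.MP_42fc1a_nt.no_local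
  refine ⟨k, fun q hq r => ?_⟩
  obtain ⟨pows, h1, h2⟩ := H q r
  set s := (pows.map (2 ^ ·)).sum with hs
  have h3 : IsCoprime ((r : ℤ) - s) q := by
    rw [Int.isCoprime_iff_gcd_eq_one]
    refine Nat.coprime_of_dvd fun p hp h4 h5 => h2 p hp h5 hq.ne' ?_
    have h6 := (ZMod.intCast_zmod_eq_zero_iff_dvd _ p).2 (Int.natCast_dvd.2 h4)
    push_cast at h6 ⊢
    linear_combination -h6
  refine Set.infinite_of_forall_exists_gt fun n => ?_
  obtain ⟨p, hp, hp', h4⟩ := Nat.forall_exists_prime_gt_and_zmodEq n hq.ne' h3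
  refine ⟨p + s, ⟨?_, p, pows, hp', h1, rfl⟩, by omega⟩
  rw [← Int.natCast_modEq_iff]
  push_cast
  simpa using h4.add_right s

end Pool.Agent.Results.MP_42fc1a_nt.EveryProgression
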